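import Mathlib
import Pool.Agent.Helper41.SQC.Goals

/-!
# Project SQ stage C (MP_bb32d1_al), packet SQC-VD: the structure constants of `[E_k, F^a]`
-/

set_option autoImplicit false
set_option linter.unusedSectionVars false

namespace Pool.Agent.Helper12.SQC

noncomputable section

open Pool.Agent.Helper19.SQ Pool.Agent.Helper41.SQC

/-- the free algebra -/
abbrev Fr : Type := FreeAlgebra ℂ ℕ

/-- the letters -/
def lt (i : ℕ) : Fr := FreeAlgebra.ι ℂ i

/-! ### (1) the skew derivation -/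

/-- the rescaling `f_i ↦ e_i f_i` -/
def sg (e : ℕ → ℂ) : Fr →ₐ[ℂ] Fr := FreeAlgebra.lift ℂ fun i => e i • lt i

/-- the triangular matrix map -/
def Mx (k : ℕ) (c : ℂ) (e : ℕ → ℂ) : Fr →ₐ[ℂ] Matrix (Fin 2) (Fin 2) Fr :=
  FreeAlgebra.lift ℂ fun i => !![lt i, if i = k then algebraMap ℂ Fr c else 0; 0, e i • lt i]

/-- the skew derivation -/
def pp (k : ℕ) (c : ℂ) (e : ℕ → ℂ) (x : Fr) : Fr := Mx k c e x 0 1

theorem sg_lt (e : ℕ → ℂ) (i : ℕ) : sg e (lt i) = e i • lt i :=
  FreeAlgebra.lift_ι_apply _ _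

theorem Mx_lt (k : ℕ) (c : ℂ) (e : ℕ → ℂ) (i : ℕ) :
    Mx k c e (lt i) = !![lt i, if i = k then algebraMap ℂ Fr c else 0; 0, e i • lt i] :=
  FreeAlgebra.lift_ι_apply _ _

theorem Mx_eq (k : ℕ) (c : ℂ) (e : ℕ → ℂ) (x : Fr) :
    Mx k c e x 0 0 = x ∧ Mx k c e x 1 0 = 0 ∧ Mx k c e x 1 1 = sg e x := by
  induction x using FreeAlgebra.induction with
  | grade0 r =>
    have h1 : Mx k c e (algebraMap ℂ Fr r) = algebraMap ℂ _ r := (Mx k c e).commutes r
    have h2 : sg e (algebraMap ℂ Fr r) = algebraMap ℂ _ r := (sg e).commutes r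
    rw [h1, h2, Matrix.algebraMap_matrix_apply, Matrix.algebraMap_matrix_apply,
      Matrix.algebraMap_matrix_apply]
    simp
  | grade1 i =>
    have h := Mx_lt k c e i
    unfold lt at h
    rw [h]
    have h2 := sg_lt e i
    unfold lt at h2
    rw [h2]
    simp
  | mul a b ha hb =>
    rw [map_mul, map_mul]
    simp only [Matrix.mul_apply, Fin.sum_univ_two]
    rw [ha.1, ha.2.1, ha.2.2, hb.1, hb.2.1, hb.2.2]
    simp
  | add a b ha hb =>
    rw [map_add, map_add]
    simp only [Matrix.add_apply]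
    rw [ha.1, ha.2.1, ha.2.2, hb.1, hb.2.1, hb.2.2]
    simp

theorem pp_mul (k : ℕ) (c : ℂ) (e : ℕ → ℂ) (x y : Fr) :
    pp k c e (x * y) = x * pp k c e y + pp k c e x * sg e y := by
  unfold pp
  rw [map_mul, Matrix.mul_apply, Fin.sum_univ_two, (Mx_eq k c e x).1, (Mx_eq k c e y).2.2]

theorem pp_add (k : ℕ) (c : ℂ) (e : ℕ → ℂ) (x y : Fr) :
    pp k c e (x + y) = pp k c e x + pp k c e y := by
  unfold pp
  rw [map_add, Matrix.add_apply]

theorem pp_alg (k : ℕ) (c : ℂ) (e : ℕ → ℂ) (r : ℂ) : pp k c e (algebraMap ℂ Fr r) = 0 := by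
  unfold pp
  rw [(Mx k c e).commutes r, Matrix.algebraMap_matrix_apply]
  simp

theorem pp_lt (k : ℕ) (c : ℂ) (e : ℕ → ℂ) (i : ℕ) :
    pp k c e (lt i) = if i = k then algebraMap ℂ Fr c else 0 := by
  unfold pp
  rw [Mx_lt]
  simp

/-- the skew derivation as a linear map -/
def ppL (k : ℕ) (c : ℂ) (e : ℕ → ℂ) : Fr →ₗ[ℂ] Fr where
  toFun := pp k c e
  map_add' := pp_add k c e
  map_smul' r x := by
    rw [RingHom.id_apply]
    unfold pp
    rw [map_smul, Matrix.smul_apply]

theorem ppL_apply (k : ℕ) (c : ℂ) (e : ℕ → ℂ) (x : Fr) : ppL k c e x = pp k c e x := rfl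

/-! ### (2) the commutator in a `GlT` family -/

section fam

variable {N l : ℕ} {q : ℂ} {R : Type} [Ring R] [Algebra ℂ R] {t t' E F K : ℕ → R}

/-- the weight -/
def ak (k i : ℕ) : ℤ := pr k i - pr (k + 1) i

theorem pow_comm (z : ℂ) (X Y : R) (h : X * Y = z • (Y * X)) (n : ℕ) :
    X ^ n * Y = z ^ n • (Y * X ^ n) := by
  induction n with
  | zero => simp
  | succ n ih =>
    rw [pow_succ, mul_assoc, h, mul_smul_comm, ← mul_assoc, ih, smul_mul_assoc, smul_smul,
      pow_succ, mul_comm (z ^ n) z, mul_assoc]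

theorem zpow_mul_pow {l : ℕ} {q : ℂ} (hl : 1 ≤ l) (hq : q ≠ 0) (h : q ^ l = 1) (a : ℤ) :
    (q ^ a) ^ (l - 1) = q ^ (-a) := by
  have h1 : (q ^ a) ^ l = 1 := by
    rw [← zpow_natCast, ← zpow_mul, mul_comm, zpow_mul, zpow_natCast, h, one_zpow]
  have h2 : q ^ a ≠ 0 := zpow_ne_zero a hq
  have h3 : (q ^ a) ^ (l - 1) * q ^ a = 1 := by
    rw [← pow_succ, Nat.sub_add_cancel hl, h1]
  rw [zpow_neg]
  exact eq_inv_of_mul_eq_one_left h3

theorem kF (hP : Par N l q) (h : GlT N l q t t' E F K) (a b i : ℕ) :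
    kk l K a b * F i = q ^ (-(pr a i - pr b i)) • (F i * kk l K a b) := by
  have hl : 1 ≤ l := by have := hP.h3; omega
  have hq : q ≠ 0 := hP.prim.ne_zero (by omega)
  have h1 := h.KF a i
  have h2 := pow_comm _ _ _ (h.KF b i) (l - 1)
  rw [zpow_mul_pow hl hq hP.prim.pow_eq_one] at h2
  unfold kk ki
  rw [mul_assoc, h2, mul_smul_comm, ← mul_assoc, h1, smul_mul_assoc, smul_smul, mul_assoc]
  congr 1
  rw [← zpow_add₀ hq]
  congr 1
  ring

theorem kEta (hP : Par N l q) (h : GlT N l q t t' E F K) (a b : ℕ) (e : ℕ → ℂ)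
    (he : ∀ i, e i = q ^ (-(pr a i - pr b i))) (x : Fr) :
    kk l K a b * FreeAlgebra.lift ℂ F x
      = FreeAlgebra.lift ℂ F (sg e x) * kk l K a b := by
  induction x using FreeAlgebra.induction with
  | grade0 r =>
    rw [AlgHom.commutes, AlgHom.commutes, AlgHom.commutes, Algebra.commutes]
  | grade1 i =>
    have h2 := sg_lt e i
    unfold lt at h2
    rw [h2, FreeAlgebra.lift_ι_apply, map_smul, FreeAlgebra.lift_ι_apply, kF hP h a b i, he,
      smul_mul_assoc]
  | mul x y hx hy =>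
    rw [map_mul, map_mul, map_mul, ← mul_assoc, hx, mul_assoc, hy, mul_assoc]
  | add x y hx hy =>
    rw [map_add, map_add, map_add, mul_add, hx, hy, add_mul]

/-- the scalars of the first skew derivation -/
def e1 (q : ℂ) (k i : ℕ) : ℂ := q ^ (-(pr k i - pr (k + 1) i))

/-- the scalars of the second skew derivation -/
def e2 (q : ℂ) (k i : ℕ) : ℂ := q ^ (-(pr (k + 1) i - pr k i))

theorem comE (hP : Par N l q) (h : GlT N l q t t' E F K) {k : ℕ} (hk : k < N) (x : Fr) :
    E k * FreeAlgebra.lift ℂ F x = FreeAlgebra.lift ℂ F x * E k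
      + t k * (FreeAlgebra.lift ℂ F (pp k (q - q⁻¹)⁻¹ (e1 q k) x) * kk l K k (k + 1))
      - t' k * (FreeAlgebra.lift ℂ F (pp k (q - q⁻¹)⁻¹ (e2 q k) x) * kk l K (k + 1) k) := by
  induction x using FreeAlgebra.induction with
  | grade0 r =>
    rw [pp_alg, pp_alg, AlgHom.commutes, map_zero, zero_mul, mul_zero, zero_mul, mul_zero,
      add_zero, sub_zero, Algebra.commutes]
  | grade1 i =>
    have h1 := pp_lt k (q - q⁻¹)⁻¹ (e1 q k) i
    have h2 := pp_lt k (q - q⁻¹)⁻¹ (e2 q k) i
    unfold lt at h1 h2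
    rw [h1, h2, FreeAlgebra.lift_ι_apply]
    by_cases hi : i = k
    · subst hi
      rw [if_pos rfl, AlgHom.commutes]
      have h3 := h.EF i hk
      have h4 : K (i + 1) * K i ^ (l - 1) = K i ^ (l - 1) * K (i + 1) :=
        Commute.pow_right (show Commute (K (i + 1)) (K i) from h.K_comm (i + 1) i) (l - 1)
      unfold kk ki
      rw [h4, ← Algebra.smul_def, ← Algebra.smul_def, mul_smul_comm, mul_smul_comm]
      rw [sub_eq_iff_eq_add] at h3
      rw [h3, smul_sub]
      abel
    · rw [if_neg hi, map_zero, zero_mul, mul_zero, zero_mul, mul_zero, add_zero, sub_zero]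
      exact h.EF_ne k i (fun hh => hi hh.symm)
  | mul x y hx hy =>
    have g1 := kEta hP h k (k + 1) (e1 q k) (fun i => rfl) y
    have g2 := kEta hP h (k + 1) k (e2 q k) (fun i => rfl) y
    rw [pp_mul, pp_mul, map_add, map_add, map_mul, map_mul, map_mul, map_mul, map_mul]
    generalize FreeAlgebra.lift ℂ F (pp k (q - q⁻¹)⁻¹ (e1 q k) x) = px at *
    generalize FreeAlgebra.lift ℂ F (pp k (q - q⁻¹)⁻¹ (e2 q k) x) = px' at *
    generalize FreeAlgebra.lift ℂ F (pp k (q - q⁻¹)⁻¹ (e1 q k) y) = py at *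
    generalize FreeAlgebra.lift ℂ F (pp k (q - q⁻¹)⁻¹ (e2 q k) y) = py' at *
    generalize FreeAlgebra.lift ℂ F (sg (e1 q k) y) = sy at *
    generalize FreeAlgebra.lift ℂ F (sg (e2 q k) y) = sy' at *
    generalize FreeAlgebra.lift ℂ F x = X at *
    generalize FreeAlgebra.lift ℂ F y = Y at *
    generalize kk l K k (k + 1) = k1 at *
    generalize kk l K (k + 1) k = k2 at *
    have c1 : X * (t k * (py * k1)) = t k * (X * py * k1) := by
      rw [← mul_assoc, ← h.tc, mul_assoc, mul_assoc]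
    have c2 : X * (t' k * (py' * k2)) = t' k * (X * py' * k2) := by
      rw [← mul_assoc, ← h.tc', mul_assoc, mul_assoc]
    have c3 : t k * (px * k1) * Y = t k * (px * sy * k1) := by
      rw [mul_assoc, mul_assoc px, g1, ← mul_assoc px]
    have c4 : t' k * (px' * k2) * Y = t' k * (px' * sy' * k2) := by
      rw [mul_assoc, mul_assoc px', g2, ← mul_assoc px']
    rw [← mul_assoc, hx, sub_mul, add_mul, c3, c4, mul_assoc X (E k) Y, hy, mul_sub, mul_add,
      c1, c2, add_mul, add_mul, mul_add, mul_add, mul_assoc X Y]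
    abel
  | add x y hx hy =>
    rw [pp_add, pp_add, map_add, map_add, map_add, mul_add, hx, hy, add_mul, add_mul, add_mul,
      mul_add, mul_add]
    abel

end fam

/-! ### (3) words -/

theorem sg_word (e : ℕ → ℂ) (w : List ℕ) :
    sg e ((w.map lt).prod) = (w.map e).prod • (w.map lt).prod := by
  induction w with
  | nil => simp
  | cons i w ih =>
    rw [List.map_cons, List.prod_cons, map_mul, ih, sg_lt, List.map_cons, List.prod_cons,
      smul_mul_smul_comm]

/-- the words obtained from `w` by deleting one letter `k` -/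
def Dw (N k : ℕ) (w : List ℕ) : Set Fr :=
  {x | ∃ w' : List ℕ, (∀ i ∈ w', i < N) ∧
    (∀ m, w'.count m + (if m = k then 1 else 0) = w.count m) ∧ x = (w'.map lt).prod}

theorem word_pp (N k : ℕ) (c : ℂ) (e : ℕ → ℂ) (w : List ℕ) (hw : ∀ i ∈ w, i < N) :
    pp k c e ((w.map lt).prod) ∈ Submodule.span ℂ (Dw N k w) := by
  induction w with
  | nil =>
    have h := pp_alg k c e 1
    rw [map_one] at h
    rw [List.map_nil, List.prod_nil, h]
    exact Submodule.zero_mem _
  | cons i w ih =>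
    have hw' : ∀ j ∈ w, j < N := fun j hj => hw j (List.mem_cons_of_mem i hj)
    rw [List.map_cons, List.prod_cons, pp_mul]
    refine Submodule.add_mem _ ?_ ?_
    · have h1 := ih hw'
      have h2 : Submodule.span ℂ (Dw N k w) ≤
          (Submodule.span ℂ (Dw N k (i :: w))).comap (LinearMap.mulLeft ℂ (lt i)) := by
        rw [Submodule.span_le]
        rintro x ⟨w', h3, h4, rfl⟩
        refine Submodule.subset_span ⟨i :: w', ?_, ?_, ?_⟩
        · intro j hj
          rcases List.mem_cons.mp hj with rfl | hj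
          · exact hw j List.mem_cons_self
          · exact h3 j hj
        · intro m
          rw [List.count_cons, List.count_cons, ← h4 m]
          omega
        · rw [List.map_cons, List.prod_cons]
          rfl
      exact h2 h1
    · rw [pp_lt, sg_word]
      split_ifs with hik
      · subst hik
        rw [← Algebra.smul_def]
        refine Submodule.smul_mem _ _ (Submodule.smul_mem _ _ (Submodule.subset_span ?_))
        refine ⟨w, hw', ?_, rfl⟩
        intro m
        rw [List.count_cons]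
        by_cases hm : m = i
        · subst hm
          simp
        · rw [if_neg hm, if_neg]
          intro hh
          have hh' : i = m := by simpa using hh
          exact hm hh'.symm
      · rw [zero_mul]
        exact Submodule.zero_mem _

/-! ### (4) the universal negative part -/

/-- the relations of the negative part -/
inductive NRel (N l : ℕ) (q : ℂ) : Fr → Fr → Prop
  | out (i : ℕ) (h : N ≤ i) : NRel N l q (lt i) 0
  | far (i j : ℕ) (h : i + 1 < j) : NRel N l q (lt i * lt j) (lt j * lt i)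
  | s1 (i : ℕ) : NRel N l q
      (lt i ^ 2 * lt (i + 1) - (q + q⁻¹) • (lt i * lt (i + 1) * lt i) + lt (i + 1) * lt i ^ 2) 0
  | s2 (i : ℕ) : NRel N l q
      (lt (i + 1) ^ 2 * lt i - (q + q⁻¹) • (lt (i + 1) * lt i * lt (i + 1))
        + lt i * lt (i + 1) ^ 2) 0
  | pw (d i : ℕ) : NRel N l q (rvA q lt d i ^ l) 0

/-- the universal negative part -/
abbrev Nm (N l : ℕ) (q : ℂ) : Type := RingQuot (NRel N l q)

/-- the quotient map -/
def pi (N l : ℕ) (q : ℂ) : Fr →ₐ[ℂ] Nm N l q := RingQuot.mkAlgHom ℂ (NRel N l q)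

theorem pi_rel {N l : ℕ} {q : ℂ} {x y : Fr} (h : NRel N l q x y) : pi N l q x = pi N l q y :=
  RingQuot.mkAlgHom_rel ℂ h

theorem pi_serre (N l : ℕ) (q : ℂ) : SerreRel q (fun i => pi N l q (lt i)) where
  far i j h := by
    simpa only [map_mul] using pi_rel (NRel.far (N := N) (l := l) (q := q) i j h)
  s1 i := by
    simpa only [map_mul, map_smul, map_sub, map_add, map_pow, map_zero] using
      pi_rel (NRel.s1 (N := N) (l := l) (q := q) i)
  s2 i := by
    simpa only [map_mul, map_smul, map_sub, map_add, map_pow, map_zero] using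
      pi_rel (NRel.s2 (N := N) (l := l) (q := q) i)

theorem pi_out (N l : ℕ) (q : ℂ) (i : ℕ) (h : N ≤ i) : pi N l q (lt i) = 0 := by
  simpa only [map_zero] using pi_rel (NRel.out (N := N) (l := l) (q := q) i h)

theorem pi_pw (N l : ℕ) (q : ℂ) (d i : ℕ) : rvA q (fun i => pi N l q (lt i)) d i ^ l = 0 := by
  rw [rvA_map, ← map_pow, pi_rel (NRel.pw (N := N) (l := l) (q := q) d i), map_zero]

/-- the admissible exponents of the right content -/
def Ak (N l k : ℕ) (a : EX N l) : Set (EX N l) :=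
  {b | ∀ m, m < N → cn N b.1 m + (if m = k then 1 else 0) = cn N a.1 m}

theorem coef_mem (h1 : S_SPW) (h2 : S_MOW) {N l : ℕ} {q : ℂ} (hP : Par N l q) (k : ℕ) (c : ℂ)
    (e : ℕ → ℂ) (a : EX N l) :
    pi N l q (pp k c e (mon N q lt a.1)) ∈ Submodule.span ℂ
      ((fun b : EX N l => mon N q (fun i => pi N l q (lt i)) b.1) '' Ak N l k a) := by
  have hl : 0 < l := by have := hP.h3; omega
  have hq : q ≠ 0 := hP.prim.ne_zero (by omega)
  have hq2 : q ^ 2 ≠ 1 := by
    intro h
    have h3 := hP.h3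
    have := (hP.prim.pow_eq_one_iff_dvd 2).mp h
    have := Nat.le_of_dvd (by norm_num) this
    omega
  have hq4 : q ^ 2 ≠ -1 := by
    intro h
    have h3 := hP.h3
    have h4 : q ^ 4 = 1 := by
      have : q ^ 4 = (q ^ 2) ^ 2 := by ring
      rw [this, h]
      norm_num
    have h5 := (hP.prim.pow_eq_one_iff_dvd 4).mp h4
    have h6 := hP.odd
    have h7 : l ∣ 1 := by
      have h8 : Nat.Coprime l 4 := by
        have : Nat.Coprime l 2 := Nat.coprime_two_right.mpr h6
        exact this.pow_right 2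
      have := Nat.Coprime.eq_one_of_dvd h8 h5
      rw [this]
    have := Nat.le_of_dvd (by norm_num) h7
    omega
  set T := Submodule.span ℂ
      ((fun b : EX N l => mon N q (fun i => pi N l q (lt i)) b.1) '' Ak N l k a) with hT
  have hmon := h2 Fr N q lt a.1 (fun i j hij => (a.2 i j).2 hij)
  have key : Submodule.span ℂ {x | ∃ w : List ℕ, (∀ k ∈ w, k < N) ∧
      (∀ m, m < N → w.count m = cn N a.1 m) ∧ x = (w.map lt).prod} ≤
      T.comap ((pi N l q).toLinearMap ∘ₗ ppL k c e) := by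
    rw [Submodule.span_le]
    rintro x ⟨w, hw1, hw2, rfl⟩
    have h3 := word_pp N k c e w hw1
    have h4 : Submodule.span ℂ (Dw N k w) ≤ T.comap (pi N l q).toLinearMap := by
      rw [Submodule.span_le]
      rintro x ⟨w', hw3, hw4, rfl⟩
      change pi N l q ((w'.map lt).prod) ∈ T
      rw [map_list_prod, List.map_map]
      have h5 := h1 (Nm N l q) N l q (fun i => pi N l q (lt i)) hl hq hq2 hq4 (pi_serre N l q)
        (pi_out N l q) (pi_pw N l q) w' hw3
      have h6 : (w'.map (fun i => pi N l q (lt i))).prod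
          = (List.map (⇑(pi N l q) ∘ lt) w').prod := rfl
      rw [← h6]
      refine Submodule.span_mono ?_ h5
      rintro y ⟨b, hb1, hb2, rfl⟩
      refine ⟨⟨b, hb1⟩, ?_, rfl⟩
      intro m hm
      rw [hb2 m hm, hw4 m, hw2 m hm]
    exact h4 h3
  exact key hmon

theorem coef_ex (h1 : S_SPW) (h2 : S_MOW) {N l : ℕ} {q : ℂ} (hP : Par N l q) (k : ℕ) (c : ℂ)
    (e : ℕ → ℂ) (a : EX N l) :
    ∃ f : EX N l → ℂ, (∀ b, f b ≠ 0 → b ∈ Ak N l k a) ∧
      pi N l q (pp k c e (mon N q lt a.1))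
        = ∑ b, f b • mon N q (fun i => pi N l q (lt i)) b.1 := by
  have h := coef_mem h1 h2 hP k c e a
  rw [Finsupp.mem_span_image_iff_linearCombination] at h
  obtain ⟨f, hf, hfe⟩ := h
  refine ⟨f, ?_, ?_⟩
  · intro b hb
    rw [Finsupp.mem_supported] at hf
    exact hf (by simpa using hb)
  · rw [← hfe, Finsupp.linearCombination_apply, Finsupp.sum_fintype]
    intro b
    rw [zero_smul]

/-! ### (5) factorization -/

theorem mon_map {R S : Type} [Ring R] [Algebra ℂ R] [Ring S] [Algebra ℂ S] (f : R →ₐ[ℂ] S)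
    (N : ℕ) (q : ℂ) (E : ℕ → R) (b : ℕ → ℕ → ℕ) :
    mon N q (fun k => f (E k)) b = f (mon N q E b) := by
  unfold mon rowM
  rw [map_list_prod, List.map_map]
  congr 1
  refine List.map_congr_left fun i _ => ?_
  rw [Function.comp_apply, map_list_prod, List.map_map]
  congr 1
  refine List.map_congr_left fun d _ => ?_
  rw [Function.comp_apply, map_pow, rv_map]

section fac

variable {N l : ℕ} {q : ℂ} {R : Type} [Ring R] [Algebra ℂ R] {t t' E F K : ℕ → R}

theorem lift_rel (h : GlT N l q t t' E F K) ⦃x y : Fr⦄ (r : NRel N l q x y) :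
    FreeAlgebra.lift ℂ F x = FreeAlgebra.lift ℂ F y := by
  have hi : ∀ i, FreeAlgebra.lift ℂ F (lt i) = F i := fun i => FreeAlgebra.lift_ι_apply _ _
  have hF : (fun i => FreeAlgebra.lift ℂ F (lt i)) = F := funext hi
  cases r with
  | out i hi' => rw [hi, map_zero]; exact h.F_out i hi'
  | far i j hij => rw [map_mul, map_mul, hi, hi]; exact h.sF.far i j hij
  | s1 i =>
    simpa only [map_mul, map_smul, map_sub, map_add, map_pow, map_zero, hi] using h.sF.s1 i
  | s2 i =>
    simpa only [map_mul, map_smul, map_sub, map_add, map_pow, map_zero, hi] using h.sF.s2 i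
  | pw d i => rw [map_pow, map_zero, ← rvA_map, hF]; exact h.pF d i

/-- the map from the universal negative part -/
def psi (h : GlT N l q t t' E F K) : Nm N l q →ₐ[ℂ] R :=
  RingQuot.liftAlgHom ℂ ⟨FreeAlgebra.lift ℂ F, fun _ _ r => lift_rel h r⟩

theorem psi_pi (h : GlT N l q t t' E F K) (x : Fr) :
    psi h (pi N l q x) = FreeAlgebra.lift ℂ F x :=
  RingQuot.liftAlgHom_mkAlgHom_apply ℂ _ _ x

theorem lift_pp (h : GlT N l q t t' E F K) (x : Fr) (f : EX N l → ℂ)
    (hx : pi N l q x = ∑ b, f b • mon N q (fun i => pi N l q (lt i)) b.1) :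
    FreeAlgebra.lift ℂ F x = ∑ b, f b • mon N q F b.1 := by
  rw [← psi_pi h, hx, map_sum]
  refine Finset.sum_congr rfl fun b _ => ?_
  rw [map_smul, ← mon_map]
  congr 2
  funext i
  rw [psi_pi]
  exact FreeAlgebra.lift_ι_apply _ _

theorem lift_mon (F : ℕ → R) (N : ℕ) (q : ℂ) (b : ℕ → ℕ → ℕ) :
    FreeAlgebra.lift ℂ F (mon N q lt b) = mon N q F b := by
  rw [← mon_map]
  congr 1
  funext i
  exact FreeAlgebra.lift_ι_apply _ _

end fac

/-- **VD** -/
theorem c_vd (h1 : S_SPW) (h2 : S_MOW) : Pool.Agent.Helper41.SQC.S_VD := by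
  intro N l q hP
  choose P hPs hPe using fun (k : ℕ) (a : EX N l) =>
    coef_ex h1 h2 hP k (q - q⁻¹)⁻¹ (e1 q k) a
  choose Q hQs hQe using fun (k : ℕ) (a : EX N l) =>
    coef_ex h1 h2 hP k (q - q⁻¹)⁻¹ (e2 q k) a
  refine ⟨⟨fun k => Matrix.of fun b a => P k a b, fun k => Matrix.of fun b a => Q k a b,
    ?_, ?_, ?_⟩⟩
  · intro R _ _ t t' E F K h k hk a
    have h3 := comE hP h hk (mon N q lt a.1)
    rw [lift_pp h _ _ (hPe k a), lift_pp h _ _ (hQe k a), lift_mon] at h3
    rw [h3]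
    simp only [Finset.sum_mul, Finset.mul_sum, smul_mul_assoc, mul_smul_comm, Matrix.of_apply]
  · intro k hk a b hb m hm
    exact hPs k a b hb m hm
  · intro k hk a b hb m hm
    exact hQs k a b hb m hm

end

end Pool.Agent.Helper12.SQC
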